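import Mathlib

/-! Potentials and girth (helper129, MP_2f9829_co). -/

set_option autoImplicit false

namespace Pool.Agent.Q129.LE

variable {V : Type}

/-- For each directed edge `x → y` there is a potential which is `0` at `x`, at least `N` at `y` and
increases by at most one along all other directed edges. -/
def Pot (G : SimpleGraph V) (N : ℕ) : Prop :=
  ∀ x y, G.Adj x y → ∃ f : V → ℕ, f x = 0 ∧ N ≤ f y ∧
    ∀ u v, G.Adj u v → ¬ (u = x ∧ v = y) → f v ≤ f u + 1

theorem walk_le {G : SimpleGraph V} (f : V → ℕ) : ∀ {u v : V} (p : G.Walk u v),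
    (∀ a b, G.Adj a b → s(a, b) ∈ p.edges → f b ≤ f a + 1) → f v ≤ f u + p.length
  | _, _, .nil, _ => by simp
  | u, v, .cons (v := w) h p, hf => by
    have h1 := walk_le f p (fun a b hab hm => hf a b hab (by simp [hm]))
    have h2 := hf u w h (by simp)
    simp only [SimpleGraph.Walk.length_cons]
    omega

theorem girth_of_pot {G : SimpleGraph V} {N : ℕ} (h : Pot G N) : ((N + 1 : ℕ) : ℕ∞) ≤ G.egirth := by
  rw [SimpleGraph.le_egirth]
  intro a w hw
  cases w with
  | nil => exact absurd hw (by simp)
  | @cons _ b _ hab p =>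
    rw [SimpleGraph.Walk.cons_isCycle_iff] at hw
    obtain ⟨f, hx, hy, hf⟩ := h b a hab.symm
    have h1 : f a ≤ f b + p.length := by
      apply walk_le f p
      intro u v huv hm
      apply hf u v huv
      rintro ⟨rfl, rfl⟩
      apply hw.2
      rw [Sym2.eq_swap]; exact hm
    simp only [SimpleGraph.Walk.length_cons]
    have h2 : N + 1 ≤ p.length + 1 := by omega
    exact_mod_cast h2

theorem pot_of_girth {G : SimpleGraph V} {N : ℕ} (h : ((N + 1 : ℕ) : ℕ∞) ≤ G.egirth) : Pot G N := by
  classical
  intro x y hxy
  set G1 := G.deleteEdges {s(x, y)} with hG1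
  refine ⟨fun v => if G1.Reachable x v then min (G1.dist x v) N else N, ?_, ?_, ?_⟩
  · simp
  · by_cases hr : G1.Reachable x y
    · simp only [hr, if_true]
      by_contra hcon
      push Not at hcon
      have hd : G1.dist x y < N := by
        by_contra h'
        push Not at h'
        rw [min_eq_right h'] at hcon
        exact lt_irrefl _ hcon
      obtain ⟨p, hp, hlen⟩ := hr.exists_path_of_dist
      have hle : G1 ≤ G := SimpleGraph.deleteEdges_le _
      have hc : (SimpleGraph.Walk.cons hxy.symm (p.mapLe hle)).IsCycle := by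
        rw [SimpleGraph.Walk.cons_isCycle_iff]
        refine ⟨(SimpleGraph.Walk.isPath_mapLe hle).mpr hp, ?_⟩
        intro hm
        rw [SimpleGraph.Walk.edges_mapLe_eq_edges] at hm
        have h1 := p.edges_subset_edgeSet hm
        rw [hG1, SimpleGraph.edgeSet_deleteEdges] at h1
        apply h1.2
        rw [Sym2.eq_swap]; rfl
      have h2 := SimpleGraph.le_egirth.mp h _ _ hc
      simp only [SimpleGraph.Walk.length_cons, SimpleGraph.Walk.length_mapLe] at h2
      have h3 : N + 1 ≤ p.length + 1 := by exact_mod_cast h2
      omega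
    · simp [hr]
  · intro u v huv hne
    by_cases he : s(u, v) = s(x, y)
    · rw [Sym2.eq_iff] at he
      rcases he with ⟨rfl, rfl⟩ | ⟨rfl, rfl⟩
      · exact absurd ⟨rfl, rfl⟩ hne
      · simp
    · have h1 : G1.Adj u v := by
        rw [hG1, SimpleGraph.deleteEdges_adj]
        exact ⟨huv, he⟩
      by_cases hr : G1.Reachable x u
      · have hr' : G1.Reachable x v := hr.trans h1.reachable
        simp only [hr, hr', if_true]
        have h2 : G1.dist x v ≤ G1.dist x u + 1 := by
          obtain ⟨p, hp⟩ := hr.exists_walk_length_eq_dist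
          have := SimpleGraph.dist_le (p.concat h1)
          rw [SimpleGraph.Walk.length_concat, hp] at this
          exact this
        omega
      · simp only [hr, if_false]
        split_ifs <;> omega

end Pool.Agent.Q129.LE
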