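import Mathlib
import Pool.Agent.Q129.LE.Pot

/-! Regular graphs with a proper edge colouring, given by involutions (helper129, MP_2f9829_co). -/

set_option autoImplicit false

namespace Pool.Agent.Q129.LE

/-- `k` involutions without fixed points, pairwise without common values. -/
structure Nb (k : ℕ) (V : Type) where
  nb : Fin k → V → V
  inv : ∀ j x, nb j (nb j x) = x
  ne : ∀ j x, nb j x ≠ x
  inj : ∀ i j x, nb i x = nb j x → i = j

namespace Nb

variable {k : ℕ} {V : Type} (S : Nb k V)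

/-- the graph -/
def gr : SimpleGraph V where
  Adj x y := ∃ j, S.nb j x = y
  symm := ⟨by rintro x y ⟨j, rfl⟩; exact ⟨j, S.inv j x⟩⟩
  loopless := ⟨by rintro x ⟨j, hj⟩; exact S.ne j x hj⟩

theorem adj_iff (x y : V) : S.gr.Adj x y ↔ ∃ j, S.nb j x = y := Iff.rfl

theorem nb_adj (j : Fin k) (x : V) : S.gr.Adj x (S.nb j x) := ⟨j, rfl⟩

theorem ncard_neighborSet (x : V) : (S.gr.neighborSet x).ncard = k := by
  have h : S.gr.neighborSet x = Set.range (fun j => S.nb j x) := by
    ext y; simp [adj_iff]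
  rw [h, ← Set.image_univ, Set.ncard_image_of_injective _ (fun i j hij => S.inj i j x hij),
    Set.ncard_univ, Nat.card_eq_fintype_card, Fintype.card_fin]

/-- the edge of colour `j` at `x` -/
def ed (j : Fin k) (x : V) : S.gr.edgeSet := ⟨s(x, S.nb j x), S.nb_adj j x⟩

theorem mem_ed (j : Fin k) (x : V) : x ∈ (S.ed j x).1 := by simp [ed]

theorem ed_nb (j : Fin k) (x : V) : S.ed j (S.nb j x) = S.ed j x := by
  apply Subtype.ext
  simp only [ed, S.inv]
  exact Sym2.eq_swap

theorem ed_inj_color {i j : Fin k} {x : V} (h : S.ed i x = S.ed j x) : i = j := by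
  have h1 := congrArg Subtype.val h
  simp only [ed] at h1
  rw [Sym2.eq_iff] at h1
  rcases h1 with h1 | h1
  · exact S.inj i j x h1.2
  · exact absurd h1.1.symm (S.ne j x)

theorem exists_ed {x : V} (e : S.gr.edgeSet) (hx : x ∈ e.1) : ∃ j, e = S.ed j x := by
  obtain ⟨e, he⟩ := e
  obtain ⟨y, rfl⟩ := Sym2.mem_iff_exists.mp hx
  rw [SimpleGraph.mem_edgeSet] at he
  obtain ⟨j, hj⟩ := he
  refine ⟨j, Subtype.ext ?_⟩
  simp [ed, hj]

theorem exists_rep (e : S.gr.edgeSet) : ∃ j x, e = S.ed j x := by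
  obtain ⟨e, he⟩ := e
  induction e using Sym2.ind with
  | _ x y =>
    obtain ⟨j, hj⟩ := he
    exact ⟨j, x, Subtype.ext (by simp [ed, hj])⟩

theorem color_unique {i j : Fin k} {x y : V} (h : S.ed i x = S.ed j y) : i = j := by
  have h1 := congrArg Subtype.val h
  simp only [ed] at h1
  rw [Sym2.eq_iff] at h1
  rcases h1 with ⟨h1, h2⟩ | ⟨h1, h2⟩
  · subst h1; exact S.inj i j x h2
  · apply S.inj i j x
    rw [h2, h1, S.inv]

theorem line_adj {i j : Fin k} (x : V) (h : i ≠ j) : S.gr.lineGraph.Adj (S.ed i x) (S.ed j x) := by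
  rw [SimpleGraph.lineGraph_adj_iff_exists]
  exact ⟨fun he => h (S.ed_inj_color he), x, S.mem_ed i x, S.mem_ed j x⟩

theorem colorable : S.gr.lineGraph.Colorable k := by
  classical
  choose c x hc using S.exists_rep
  refine ⟨SimpleGraph.Coloring.mk c ?_⟩
  intro e f hef hcf
  rw [SimpleGraph.lineGraph_adj_iff_exists] at hef
  obtain ⟨hne, v, hve, hvf⟩ := hef
  obtain ⟨i, hi⟩ := S.exists_ed e hve
  obtain ⟨j, hj⟩ := S.exists_ed f hvf
  have h1 : c e = i := S.color_unique (by rw [← hc e]; exact hi)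
  have h2 : c f = j := S.color_unique (by rw [← hc f]; exact hj)
  apply hne
  rw [hi, hj, ← h1, ← h2, hcf]

end Nb

end Pool.Agent.Q129.LE
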