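import Mathlib
import Pool.Agent.Q129.LE.Nb

/-! Bipartite `k`-regular graphs of large girth with a proper edge colouring with `k` colours,
of arbitrarily large order (helper129, MP_2f9829_co): involutions acting on reduced words. -/

set_option autoImplicit false

namespace Pool.Agent.Q129.LE

/-- reduced words of length at most `L` -/
abbrev Wd (k L : ℕ) : Type := {l : List (Fin k) // l.IsChain (· ≠ ·) ∧ l.length ≤ L}

instance (k L : ℕ) : Finite (Wd k L) := by
  have h : Finite {l : List (Fin k) // l.length ≤ L} := List.finite_length_le (Fin k) L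
  exact Finite.of_injective (fun w : Wd k L => (⟨w.1, w.2.2⟩ : {l : List (Fin k) // l.length ≤ L}))
    (fun a b hab => Subtype.ext (congrArg (fun z : {l : List (Fin k) // l.length ≤ L} => z.1) hab))

namespace Wd

variable {k L : ℕ}

/-- the action of a letter -/
def act (i : Fin k) (w : Wd k L) : Wd k L :=
  if h : w.1.head? = some i then
    ⟨w.1.tail, w.2.1.tail, by
      have := w.2.2
      rw [List.length_tail]; omega⟩
  else if h2 : w.1.length < L then
    ⟨i :: w.1, by
      rw [List.isChain_cons]
      refine ⟨fun y hy => ?_, w.2.1⟩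
      rintro rfl
      exact h (by simpa using hy), by simpa using h2⟩
  else w

theorem act_head {i : Fin k} {w : Wd k L} (h : w.1.head? = some i) : (act i w).1 = w.1.tail := by
  unfold act; rw [dif_pos h]

theorem act_cons {i : Fin k} {w : Wd k L} (h : w.1.head? ≠ some i) (h2 : w.1.length < L) :
    (act i w).1 = i :: w.1 := by
  unfold act; rw [dif_neg h, dif_pos h2]

theorem act_full {i : Fin k} {w : Wd k L} (h : w.1.head? ≠ some i) (h2 : ¬ w.1.length < L) :
    act i w = w := by
  unfold act; rw [dif_neg h, dif_neg h2]

theorem act_act (i : Fin k) (w : Wd k L) : act i (act i w) = w := by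
  by_cases h : w.1.head? = some i
  · obtain ⟨l, hl⟩ : ∃ l, w.1 = i :: l := by
      rcases hw : w.1 with _ | ⟨a, l⟩
      · rw [hw] at h; simp at h
      · rw [hw] at h; simp at h; exact ⟨l, by rw [h]⟩
    have h1 : (act i w).1 = l := by rw [act_head h, hl]; rfl
    have h2 : (act i w).1.head? ≠ some i := by
      rw [h1]
      intro hh
      have h3 := w.2.1
      rw [hl, List.isChain_cons] at h3
      exact h3.1 i (by simpa using hh) rfl
    have h3 : (act i w).1.length < L := by
      have := w.2.2
      rw [hl] at this
      rw [h1]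
      simpa using this
    apply Subtype.ext
    rw [act_cons h2 h3, h1, hl]
  · by_cases h2 : w.1.length < L
    · have h1 : (act i w).1 = i :: w.1 := act_cons h h2
      have h3 : (act i w).1.head? = some i := by rw [h1]; rfl
      apply Subtype.ext
      rw [act_head h3, h1]; rfl
    · rw [act_full h h2, act_full h h2]

/-- the action as a permutation -/
def perm (i : Fin k) : Equiv.Perm (Wd k L) := ⟨act i, act i, act_act i, act_act i⟩

/-- the empty word -/
def nil : Wd k L := ⟨[], by simp, by simp⟩

theorem perm_inj (hL : 1 ≤ L) {i j : Fin k} (h : (perm i : Equiv.Perm (Wd k L)) = perm j) : i = j := by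
  have h1 : act i (nil : Wd k L) = act j nil := congrFun (congrArg (fun e : Equiv.Perm (Wd k L) => (e : Wd k L → Wd k L)) h) nil
  have h2 := congrArg Subtype.val h1
  rw [act_cons (by simp [nil]) (by simp [nil]; omega), act_cons (by simp [nil]) (by simp [nil]; omega)] at h2
  simpa using h2

end Wd

/-- the vertices of the graph `H` -/
abbrev HV (k L M : ℕ) : Type := Equiv.Perm (Wd k L) × Bool × Fin M

/-- the graph `H`, given by its involutions -/
def HS (k L M : ℕ) (hL : 1 ≤ L) : Nb k (HV k L M) where
  nb j x := (Wd.perm j * x.1, !x.2.1, x.2.2)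
  inv j x := by
    ext1
    · ext w
      simp [Wd.perm, Wd.act_act]
    · simp
  ne j x h := by
    have := congrArg (fun y : HV k L M => y.2.1) h
    simp at this
  inj i j x h := by
    have h1 := congrArg Prod.fst h
    simp only [mul_left_inj] at h1
    exact Wd.perm_inj hL h1

theorem HS_word {k L M : ℕ} (hL : 1 ≤ L) : ∀ {x y : HV k L M} (p : (HS k L M hL).gr.Walk x y),
    p.IsTrail → ∀ u : Wd k L, u.1.length + p.length ≤ L →
    (∀ i, u.1.head? = some i → s(x, (HS k L M hL).nb i x) ∉ p.edges) →
    ((y.1 * x.1⁻¹) u).1.length = u.1.length + p.length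
  | x, _, .nil, _, u, _, _ => by simp
  | x, y, .cons (v := z) h p, hp, u, hu, hh => by
    obtain ⟨j, hj⟩ := ((HS k L M hL).adj_iff x z).mp h
    rw [SimpleGraph.Walk.isTrail_cons] at hp
    have hj' : z.1 = Wd.perm j * x.1 := by rw [← hj]; rfl
    have hhead : u.1.head? ≠ some j := by
      intro hc
      apply hh j hc
      rw [hj]; simp
    simp only [SimpleGraph.Walk.length_cons] at hu ⊢
    have hlen : u.1.length < L := by omega
    have e1 : (Wd.act j u).1 = j :: u.1 := Wd.act_cons hhead hlen
    have h2 := HS_word hL p hp.1 (Wd.act j u) (by rw [e1]; simp; omega) (by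
      intro i hi
      rw [e1] at hi
      simp only [List.head?_cons, Option.some.injEq] at hi
      subst hi
      have e3 : (HS k L M hL).nb j z = x := by rw [← hj, (HS k L M hL).inv]
      rw [e3, Sym2.eq_swap]
      exact hp.2)
    have e2 : (y.1 * x.1⁻¹) u = (y.1 * z.1⁻¹) (Wd.act j u) := by
      rw [hj']
      simp only [mul_inv_rev, Equiv.Perm.mul_apply]
      congr 2
      show u = (Wd.perm j)⁻¹ (Wd.perm j u)
      simp
    rw [e2, h2, e1]
    simp; omega

theorem HS_girth {k L M : ℕ} (hL : 1 ≤ L) : ((L + 1 : ℕ) : ℕ∞) ≤ (HS k L M hL).gr.egirth := by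
  rw [SimpleGraph.le_egirth]
  intro x p hp
  by_contra hcon
  push Not at hcon
  have h1 : p.length < L + 1 := by exact_mod_cast hcon
  have h2 := HS_word hL p hp.isTrail Wd.nil (by simp [Wd.nil]; omega) (by simp [Wd.nil])
  simp only [mul_inv_cancel, Equiv.Perm.one_apply] at h2
  have h3 := hp.three_le_length
  simp only [Wd.nil, List.length_nil] at h2
  omega

end Pool.Agent.Q129.LE
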