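import Mathlib
import Pool.Agent.Q129.LE.Nb

/-! Replacing the edges of a multigraph by gadgets (helper129, MP_2f9829_co). -/

set_option autoImplicit false

namespace Pool.Agent.Q129.LE

/-- a `k`-regular loopless multigraph with a proper edge colouring with `k` colours -/
structure Base (k : ℕ) (V E : Type) where
  s : E → V
  t : E → V
  ne : ∀ e, s e ≠ t e
  col : E → Fin k
  inc : V → Fin k → E
  inc_col : ∀ v i, col (inc v i) = i
  inc_mem : ∀ v i, s (inc v i) = v ∨ t (inc v i) = v
  uniq : ∀ e v, s e = v ∨ t e = v → inc v (col e) = e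

namespace Base

open Classical

variable {k : ℕ} {V E W : Type} (B : Base k V E) (S : Nb k W) (a : W)

/-- the neighbour function of the graph `G'` -/
noncomputable def nbF (j : Fin k) : V ⊕ E × W → V ⊕ E × W
  | Sum.inl v => if B.s (B.inc v j) = v then Sum.inr (B.inc v j, a)
      else Sum.inr (B.inc v j, S.nb j a)
  | Sum.inr (e, w) => if j = B.col e then
      (if w = a then Sum.inl (B.s e) else if w = S.nb j a then Sum.inl (B.t e)
        else Sum.inr (e, S.nb j w)) else Sum.inr (e, S.nb j w)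

theorem nbF_s {e : E} : B.nbF S a (B.col e) (Sum.inl (B.s e)) = Sum.inr (e, a) := by
  have h := B.uniq e (B.s e) (Or.inl rfl)
  simp only [nbF, h, if_true]

theorem nbF_t {e : E} : B.nbF S a (B.col e) (Sum.inl (B.t e)) = Sum.inr (e, S.nb (B.col e) a) := by
  have h := B.uniq e (B.t e) (Or.inr rfl)
  simp only [nbF, h]
  rw [if_neg (B.ne e)]

theorem nbF_a {e : E} : B.nbF S a (B.col e) (Sum.inr (e, a)) = Sum.inl (B.s e) := by
  simp [nbF]

theorem nbF_b {e : E} : B.nbF S a (B.col e) (Sum.inr (e, S.nb (B.col e) a)) = Sum.inl (B.t e) := by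
  simp [nbF, S.ne]

/-- the inner edges -/
def Inner (e : E) (j : Fin k) (w : W) : Prop := ¬ (j = B.col e ∧ (w = a ∨ w = S.nb j a))

theorem nbF_inner {e : E} {j : Fin k} {w : W} (h : B.Inner S a e j w) :
    B.nbF S a j (Sum.inr (e, w)) = Sum.inr (e, S.nb j w) := by
  unfold Inner at h
  simp only [nbF]
  by_cases hj : j = B.col e
  · rw [if_pos hj, if_neg (fun hw => h ⟨hj, Or.inl hw⟩), if_neg (fun hw => h ⟨hj, Or.inr hw⟩)]
  · rw [if_neg hj]

theorem Inner.nb {e : E} {j : Fin k} {w : W} (h : B.Inner S a e j w) :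
    B.Inner S a e j (S.nb j w) := by
  unfold Inner at h ⊢
  rintro ⟨hj, hw | hw⟩
  · exact h ⟨hj, Or.inr (by rw [← hw, S.inv])⟩
  · apply h
    refine ⟨hj, Or.inl ?_⟩
    have := congrArg (S.nb j) hw
    rwa [S.inv, S.inv] at this

/-- the five kinds of directed edges -/
theorem cases_nb (j : Fin k) (x : V ⊕ E × W) :
    (∃ e w, x = Sum.inr (e, w) ∧ B.Inner S a e j w) ∨
    (∃ e, j = B.col e ∧ x = Sum.inl (B.s e)) ∨ (∃ e, j = B.col e ∧ x = Sum.inl (B.t e)) ∨
    (∃ e, j = B.col e ∧ x = Sum.inr (e, a)) ∨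
    (∃ e, j = B.col e ∧ x = Sum.inr (e, S.nb (B.col e) a)) := by
  rcases x with v | ⟨e, w⟩
  · right
    rcases B.inc_mem v j with h | h
    · left; exact ⟨B.inc v j, (B.inc_col v j).symm, by rw [h]⟩
    · right; left; exact ⟨B.inc v j, (B.inc_col v j).symm, by rw [h]⟩
  · by_cases h : B.Inner S a e j w
    · left; exact ⟨e, w, rfl, h⟩
    · unfold Inner at h
      push Not at h
      obtain ⟨hj, hw | hw⟩ := h
      · right; right; right; left; exact ⟨e, hj, by rw [hw]⟩
      · right; right; right; right; exact ⟨e, hj, by rw [hw, hj]⟩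

/-- the graph `G'` -/
noncomputable def big : Nb k (V ⊕ E × W) where
  nb := B.nbF S a
  inv j x := by
    rcases B.cases_nb S a j x with ⟨e, w, rfl, h⟩ | ⟨e, rfl, rfl⟩ | ⟨e, rfl, rfl⟩ | ⟨e, rfl, rfl⟩ |
      ⟨e, rfl, rfl⟩
    · rw [nbF_inner B S a h, nbF_inner B S a (Inner.nb B S a h), S.inv]
    · rw [nbF_s, nbF_a]
    · rw [nbF_t, nbF_b]
    · rw [nbF_a, nbF_s]
    · rw [nbF_b, nbF_t]
  ne j x := by
    rcases B.cases_nb S a j x with ⟨e, w, rfl, h⟩ | ⟨e, rfl, rfl⟩ | ⟨e, rfl, rfl⟩ | ⟨e, rfl, rfl⟩ |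
      ⟨e, rfl, rfl⟩
    · rw [nbF_inner B S a h]
      intro hh
      simp only [Sum.inr.injEq, Prod.mk.injEq, true_and] at hh
      exact S.ne j w hh
    · rw [nbF_s]; simp
    · rw [nbF_t]; simp
    · rw [nbF_a]; simp
    · rw [nbF_b]; simp
  inj i j x h := by
    rcases x with v | ⟨e, w⟩
    · have h1 : ∀ i, ∃ w, B.nbF S a i (Sum.inl v) = Sum.inr (B.inc v i, w) := by
        intro i
        simp only [nbF]
        split_ifs
        · exact ⟨_, rfl⟩
        · exact ⟨_, rfl⟩
      obtain ⟨w1, h2⟩ := h1 i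
      obtain ⟨w2, h3⟩ := h1 j
      rw [h2, h3] at h
      simp only [Sum.inr.injEq, Prod.mk.injEq] at h
      rw [← B.inc_col v i, h.1, B.inc_col]
    · by_cases hi : B.Inner S a e i w
      · by_cases hj : B.Inner S a e j w
        · rw [nbF_inner B S a hi, nbF_inner B S a hj] at h
          simp only [Sum.inr.injEq, Prod.mk.injEq, true_and] at h
          exact S.inj i j w h
        · exfalso
          rw [nbF_inner B S a hi] at h
          unfold Inner at hj
          push Not at hj
          obtain ⟨rfl, rfl | rfl⟩ := hj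
          · rw [nbF_a] at h; simp at h
          · rw [nbF_b] at h; simp at h
      · by_cases hj : B.Inner S a e j w
        · exfalso
          rw [nbF_inner B S a hj] at h
          unfold Inner at hi
          push Not at hi
          obtain ⟨rfl, rfl | rfl⟩ := hi
          · rw [nbF_a] at h; simp at h
          · rw [nbF_b] at h; simp at h
        · unfold Inner at hi hj
          push Not at hi hj
          rw [hi.1, hj.1]

theorem big_nb (j : Fin k) : (B.big S a).nb j = B.nbF S a j := rfl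

/-- Lipschitz functions that are constant outside of one gadget -/
theorem lip_one (e : E) (f0 : W → ℕ) (c : ℕ)
    (Q : V ⊕ E × W → V ⊕ E × W → Prop)
    (h1 : ∀ j w, B.Inner S a e j w → ¬ Q (Sum.inr (e, w)) (Sum.inr (e, S.nb j w)) →
      f0 (S.nb j w) ≤ f0 w + 1)
    (h2 : ¬ Q (Sum.inl (B.s e)) (Sum.inr (e, a)) → f0 a ≤ c + 1)
    (h3 : ¬ Q (Sum.inl (B.t e)) (Sum.inr (e, S.nb (B.col e) a)) → f0 (S.nb (B.col e) a) ≤ c + 1)
    (h4 : ¬ Q (Sum.inr (e, a)) (Sum.inl (B.s e)) → c ≤ f0 a + 1)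
    (h5 : ¬ Q (Sum.inr (e, S.nb (B.col e) a)) (Sum.inl (B.t e)) → c ≤ f0 (S.nb (B.col e) a) + 1) :
    ∀ u v, (B.big S a).gr.Adj u v → ¬ Q u v →
      Sum.elim (fun _ => c) (fun p : E × W => if p.1 = e then f0 p.2 else c) v
        ≤ Sum.elim (fun _ => c) (fun p : E × W => if p.1 = e then f0 p.2 else c) u + 1 := by
  rintro u v ⟨j, rfl⟩ hQ
  rw [big_nb] at hQ ⊢
  rcases B.cases_nb S a j u with ⟨e', w, rfl, h⟩ | ⟨e', rfl, rfl⟩ | ⟨e', rfl, rfl⟩ |
    ⟨e', rfl, rfl⟩ | ⟨e', rfl, rfl⟩
  · rw [nbF_inner B S a h] at hQ ⊢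
    simp only [Sum.elim_inr]
    by_cases he : e' = e
    · subst he; simp only [if_true]; exact h1 j w h hQ
    · simp [he]
  · rw [nbF_s] at hQ ⊢
    simp only [Sum.elim_inr, Sum.elim_inl]
    by_cases he : e' = e
    · subst he; simp only [if_true]; exact h2 hQ
    · simp [he]
  · rw [nbF_t] at hQ ⊢
    simp only [Sum.elim_inr, Sum.elim_inl]
    by_cases he : e' = e
    · subst he; simp only [if_true]; exact h3 hQ
    · simp [he]
  · rw [nbF_a] at hQ ⊢
    simp only [Sum.elim_inr, Sum.elim_inl]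
    by_cases he : e' = e
    · subst he; simp only [if_true]; exact h4 hQ
    · simp [he]
  · rw [nbF_b] at hQ ⊢
    simp only [Sum.elim_inr, Sum.elim_inl]
    by_cases he : e' = e
    · subst he; simp only [if_true]; exact h5 hQ
    · simp [he]

theorem big_pot {N : ℕ} (hS : Pot S.gr N) : Pot (B.big S a).gr N := by
  rintro x y ⟨j, rfl⟩
  rw [big_nb]
  rcases B.cases_nb S a j x with ⟨e, w, rfl, h⟩ | ⟨e, rfl, rfl⟩ | ⟨e, rfl, rfl⟩ |
    ⟨e, rfl, rfl⟩ | ⟨e, rfl, rfl⟩
  · rw [nbF_inner B S a h]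
    obtain ⟨f0, hf1, hf2, hf3⟩ := hS w (S.nb j w) (S.nb_adj j w)
    have hab : f0 (S.nb (B.col e) a) ≤ f0 a + 1 := by
      apply hf3 a _ (S.nb_adj _ _)
      rintro ⟨rfl, h2⟩
      exact h ⟨(S.inj _ _ _ h2).symm, Or.inl rfl⟩
    have hba : f0 a ≤ f0 (S.nb (B.col e) a) + 1 := by
      apply hf3 _ a (S.nb_adj _ _).symm
      rintro ⟨h1, h2⟩
      have h3 : j = B.col e := by
        apply S.inj j (B.col e) w
        rw [← h2, ← h1, S.inv]
      apply h
      refine ⟨h3, Or.inr ?_⟩
      rw [h3, h1]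
    refine ⟨Sum.elim (fun _ => f0 a) (fun p : E × W => if p.1 = e then f0 p.2 else f0 a), by simpa using hf1,
      by simpa using hf2, ?_⟩
    apply B.lip_one S a e f0 (f0 a) (fun u v => u = Sum.inr (e, w) ∧ v = Sum.inr (e, S.nb j w))
    · intro i w' _ hQ
      apply hf3 _ _ (S.nb_adj i w')
      rintro ⟨rfl, h2⟩
      exact hQ ⟨rfl, by rw [h2]⟩
    · intro _; omega
    · intro _; exact hab
    · intro _; omega
    · intro _; exact hba
  · rw [nbF_s]
    obtain ⟨f0, hf1, hf2, hf3⟩ := hS (S.nb (B.col e) a) a (S.nb_adj _ _).symm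
    refine ⟨Sum.elim (fun _ => 0) (fun p : E × W => if p.1 = e then f0 p.2 else 0), by simp,
      by simpa using hf2, ?_⟩
    apply B.lip_one S a e f0 0 (fun u v => u = Sum.inl (B.s e) ∧ v = Sum.inr (e, a))
    · intro i w' hin _
      apply hf3 _ _ (S.nb_adj i w')
      rintro ⟨h1, h2⟩
      apply hin
      have h3 : i = B.col e := by
        apply S.inj i (B.col e) w'
        rw [h2, h1, S.inv]
      exact ⟨h3, Or.inr (by rw [h3, h1])⟩
    · intro hQ; exact absurd ⟨rfl, rfl⟩ hQ
    · intro _; omega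
    · intro _; omega
    · intro _; omega
  · rw [nbF_t]
    obtain ⟨f0, hf1, hf2, hf3⟩ := hS a (S.nb (B.col e) a) (S.nb_adj _ _)
    refine ⟨Sum.elim (fun _ => 0) (fun p : E × W => if p.1 = e then f0 p.2 else 0), by simp,
      by simpa using hf2, ?_⟩
    apply B.lip_one S a e f0 0 (fun u v => u = Sum.inl (B.t e) ∧ v = Sum.inr (e, S.nb (B.col e) a))
    · intro i w' hin _
      apply hf3 _ _ (S.nb_adj i w')
      rintro ⟨h1, h2⟩
      apply hin
      subst h1
      exact ⟨S.inj _ _ _ h2, Or.inl rfl⟩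
    · intro _; omega
    · intro hQ; exact absurd ⟨rfl, rfl⟩ hQ
    · intro _; omega
    · intro _; omega
  · rw [nbF_a]
    obtain ⟨f0, hf1, hf2, hf3⟩ := hS a (S.nb (B.col e) a) (S.nb_adj _ _)
    refine ⟨Sum.elim (fun _ => f0 (S.nb (B.col e) a))
      (fun p : E × W => if p.1 = e then f0 p.2 else f0 (S.nb (B.col e) a)), by simpa using hf1,
      by simpa using hf2, ?_⟩
    apply B.lip_one S a e f0 _ (fun u v => u = Sum.inr (e, a) ∧ v = Sum.inl (B.s e))
    · intro i w' hin _
      apply hf3 _ _ (S.nb_adj i w')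
      rintro ⟨h1, h2⟩
      apply hin
      subst h1
      exact ⟨S.inj _ _ _ h2, Or.inl rfl⟩
    · intro _; omega
    · intro _; omega
    · intro hQ; exact absurd ⟨rfl, rfl⟩ hQ
    · intro _; omega
  · rw [nbF_b]
    obtain ⟨f0, hf1, hf2, hf3⟩ := hS (S.nb (B.col e) a) a (S.nb_adj _ _).symm
    refine ⟨Sum.elim (fun _ => f0 a) (fun p : E × W => if p.1 = e then f0 p.2 else f0 a),
      by simpa using hf1, by simpa using hf2, ?_⟩
    apply B.lip_one S a e f0 _ (fun u v => u = Sum.inr (e, S.nb (B.col e) a) ∧ v = Sum.inl (B.t e))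
    · intro i w' hin _
      apply hf3 _ _ (S.nb_adj i w')
      rintro ⟨h1, h2⟩
      apply hin
      have h3 : i = B.col e := by
        apply S.inj i (B.col e) w'
        rw [h2, h1, S.inv]
      exact ⟨h3, Or.inr (by rw [h3, h1])⟩
    · intro _; omega
    · intro _; omega
    · intro _; omega
    · intro hQ; exact absurd ⟨rfl, rfl⟩ hQ

/-- the old vertices are far apart -/
theorem big_dist {N : ℕ} (hS : Pot S.gr N) {u v : V} (huv : u ≠ v) :
    (N : ℕ∞) ≤ (B.big S a).gr.edist (Sum.inl u) (Sum.inl v) := by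
  choose fab hab0 habN habL using fun i : Fin k => hS a (S.nb i a) (S.nb_adj i a)
  choose fba hba0 hbaN hbaL using fun i : Fin k => hS (S.nb i a) a (S.nb_adj i a).symm
  let f : V ⊕ E × W → ℕ := Sum.elim (fun x => if x = u then 0 else N)
    (fun p => if B.s p.1 = u then min (fab (B.col p.1) p.2) N
      else if B.t p.1 = u then min (fba (B.col p.1) p.2) N else N)
  have hf : ∀ x y, (B.big S a).gr.Adj x y → f y ≤ f x + 1 := by
    rintro x y ⟨j, rfl⟩
    rw [big_nb]
    rcases B.cases_nb S a j x with ⟨e, w, rfl, h⟩ | ⟨e, rfl, rfl⟩ | ⟨e, rfl, rfl⟩ |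
      ⟨e, rfl, rfl⟩ | ⟨e, rfl, rfl⟩
    · rw [nbF_inner B S a h]
      simp only [f, Sum.elim_inr]
      by_cases h1 : B.s e = u
      · simp only [h1, if_true]
        have : fab (B.col e) (S.nb j w) ≤ fab (B.col e) w + 1 := by
          apply habL _ _ _ (S.nb_adj j w)
          rintro ⟨h2, h3⟩
          apply h
          subst h2
          exact ⟨S.inj _ _ _ h3, Or.inl rfl⟩
        omega
      · by_cases h2 : B.t e = u
        · simp only [h1, if_false, h2, if_true]
          have : fba (B.col e) (S.nb j w) ≤ fba (B.col e) w + 1 := by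
            apply hbaL _ _ _ (S.nb_adj j w)
            rintro ⟨h3, h4⟩
            apply h
            have h5 : j = B.col e := by
              apply S.inj j (B.col e) w
              rw [h4, h3, S.inv]
            exact ⟨h5, Or.inr (by rw [h5, h3])⟩
          omega
        · simp [h1, h2]
    · rw [nbF_s]
      simp only [f, Sum.elim_inr, Sum.elim_inl]
      by_cases h1 : B.s e = u
      · simp [h1, hab0]
      · simp only [h1, if_false]
        split_ifs <;> omega
    · rw [nbF_t]
      simp only [f, Sum.elim_inr, Sum.elim_inl]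
      by_cases h2 : B.t e = u
      · have h1 : B.s e ≠ u := fun h => B.ne e (h.trans h2.symm)
        simp [h1, h2, hba0]
      · simp only [h2, if_false]
        split_ifs <;> omega
    · rw [nbF_a]
      simp only [f, Sum.elim_inr, Sum.elim_inl]
      by_cases h1 : B.s e = u
      · simp [h1]
      · have := hbaN (B.col e)
        simp only [h1, if_false]
        split_ifs <;> omega
    · rw [nbF_b]
      simp only [f, Sum.elim_inr, Sum.elim_inl]
      by_cases h2 : B.t e = u
      · simp [h2]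
      · have := habN (B.col e)
        simp only [h2, if_false]
        split_ifs <;> omega
  unfold SimpleGraph.edist
  refine le_iInf (fun p => ?_)
  have h1 := walk_le f p (fun a b hab _ => hf a b hab)
  simp only [f, Sum.elim_inl, if_true, huv.symm, if_false] at h1
  have h2 : N ≤ p.length := by omega
  exact_mod_cast h2

end Base

end Pool.Agent.Q129.LE
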