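import Mathlib
import Pool.Agent.Q129.LE.Gad

/-! The parity lemma and the reduction (helper129, MP_2f9829_co). -/

set_option autoImplicit false

namespace Pool.Agent.Q129.LE

namespace Base

variable {k : ℕ} {V E W : Type} (B : Base k V E) (S : Nb k W) (a : W)

theorem own_exists (e' : (B.big S a).gr.edgeSet) : ∃ e : E, ∃ w : W, (Sum.inr (e, w)) ∈ e'.1 := by
  obtain ⟨j, x, rfl⟩ := (B.big S a).exists_rep e'
  rcases B.cases_nb S a j x with ⟨e, w, rfl, h⟩ | ⟨e, rfl, rfl⟩ | ⟨e, rfl, rfl⟩ |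
    ⟨e, rfl, rfl⟩ | ⟨e, rfl, rfl⟩
  · exact ⟨e, w, (B.big S a).mem_ed _ _⟩
  · refine ⟨e, a, ?_⟩
    simp [Nb.ed, big_nb, nbF_s]
  · refine ⟨e, S.nb (B.col e) a, ?_⟩
    simp [Nb.ed, big_nb, nbF_t]
  · exact ⟨e, a, (B.big S a).mem_ed _ _⟩
  · exact ⟨e, S.nb (B.col e) a, (B.big S a).mem_ed _ _⟩

/-- the gadget of an edge of `G'` -/
noncomputable def own (e' : (B.big S a).gr.edgeSet) : E := (B.own_exists S a e').choose

theorem mem_unique {e' : (B.big S a).gr.edgeSet} {e1 e2 : E} {w1 w2 : W}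
    (h1 : (Sum.inr (e1, w1)) ∈ e'.1) (h2 : (Sum.inr (e2, w2)) ∈ e'.1) : e1 = e2 := by
  obtain ⟨j, hj⟩ := (B.big S a).exists_ed e' h1
  rw [hj] at h2
  simp only [Nb.ed, Sym2.mem_iff, big_nb] at h2
  rcases h2 with h2 | h2
  · simp only [Sum.inr.injEq, Prod.mk.injEq] at h2
    exact h2.1.symm
  · by_cases h : B.Inner S a e1 j w1
    · rw [nbF_inner B S a h] at h2
      simp only [Sum.inr.injEq, Prod.mk.injEq] at h2
      exact h2.1.symm
    · exfalso
      unfold Inner at h
      push Not at h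
      obtain ⟨rfl, rfl | rfl⟩ := h
      · rw [nbF_a] at h2; simp at h2
      · rw [nbF_b] at h2; simp at h2

theorem own_eq {e' : (B.big S a).gr.edgeSet} {e : E} {w : W} (h : (Sum.inr (e, w)) ∈ e'.1) :
    B.own S a e' = e := by
  obtain ⟨w', hw'⟩ := (B.own_exists S a e').choose_spec
  exact B.mem_unique S a hw' h

theorem own_ed (j : Fin k) (e : E) (w : W) : B.own S a ((B.big S a).ed j (Sum.inr (e, w))) = e :=
  B.own_eq S a ((B.big S a).mem_ed _ _)

theorem parity [Fintype W] (hW : Even (Fintype.card W)) (L : E → Finset ℕ)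
    (hL : ∀ e, (L e).card = k) (f : (B.big S a).gr.edgeSet → ℕ)
    (hf : ∀ e', f e' ∈ L (B.own S a e'))
    (hp : ∀ e' e'', (B.big S a).gr.lineGraph.Adj e' e'' → f e' ≠ f e'') (e : E) :
    f ((B.big S a).ed (B.col e) (Sum.inr (e, S.nb (B.col e) a)))
      = f ((B.big S a).ed (B.col e) (Sum.inr (e, a))) := by
  classical
  by_contra hne
  set x := f ((B.big S a).ed (B.col e) (Sum.inr (e, a))) with hx
  have huniq : ∀ (y : V ⊕ E × W) (i j : Fin k), f ((B.big S a).ed i y) = f ((B.big S a).ed j y) →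
      i = j := by
    intro y i j hij
    by_contra hc
    exact hp _ _ ((B.big S a).line_adj y hc) hij
  have hxL : x ∈ L e := by
    have := hf ((B.big S a).ed (B.col e) (Sum.inr (e, a)))
    rwa [own_ed] at this
  have hJ : ∀ w : W, ∃ j, f ((B.big S a).ed j (Sum.inr (e, w))) = x := by
    intro w
    have h1 : (Finset.univ.image (fun j => f ((B.big S a).ed j (Sum.inr (e, w))))) = L e := by
      apply Finset.eq_of_subset_of_card_le
      · intro z hz
        rw [Finset.mem_image] at hz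
        obtain ⟨j, _, rfl⟩ := hz
        have := hf ((B.big S a).ed j (Sum.inr (e, w)))
        rwa [own_ed] at this
      · rw [Finset.card_image_of_injective _ (fun i j hij => huniq _ i j hij), hL e]
        simp
    rw [← h1, Finset.mem_image] at hxL
    obtain ⟨j, _, hj⟩ := hxL
    exact ⟨j, hj⟩
  choose J hJx using hJ
  have hJa : J a = B.col e := huniq _ _ _ ((hJx a).trans hx)
  have hin : ∀ w, w ≠ a → B.Inner S a e (J w) w := by
    rintro w hw ⟨h1, h2 | h2⟩
    · exact hw h2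
    · apply hne
      have h3 := hJx w
      rw [h1] at h2 h3
      rw [← h2]
      exact h3
  have hstep : ∀ w, w ≠ a → J (S.nb (J w) w) = J w := by
    intro w hw
    apply huniq (Sum.inr (e, S.nb (J w) w))
    rw [hJx]
    have h1 : (B.big S a).nb (J w) (Sum.inr (e, w)) = Sum.inr (e, S.nb (J w) w) :=
      nbF_inner B S a (hin w hw)
    rw [← h1, (B.big S a).ed_nb, hJx]
  have hna : ∀ w, w ≠ a → S.nb (J w) w ≠ a := by
    intro w hw h1
    have h2 := hstep w hw
    rw [h1, hJa] at h2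
    apply hin w hw
    refine ⟨h2.symm, Or.inr ?_⟩
    rw [← h1, S.inv]
  have hsum : ∑ w ∈ Finset.univ.erase a, (1 : ZMod 2) = 0 := by
    apply Finset.sum_involution (fun w _ => S.nb (J w) w)
    · intro w _; decide
    · intro w _ _; exact S.ne _ _
    · intro w hw
      rw [Finset.mem_erase] at hw ⊢
      exact ⟨hna w hw.1, Finset.mem_univ _⟩
    · intro w hw
      rw [Finset.mem_erase] at hw
      show S.nb (J (S.nb (J w) w)) (S.nb (J w) w) = w
      rw [hstep w hw.1, S.inv]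
  rw [Finset.sum_const, Finset.card_erase_of_mem (Finset.mem_univ a), Finset.card_univ, nsmul_eq_mul,
    mul_one, ZMod.natCast_eq_zero_iff] at hsum
  have hpos : 0 < Fintype.card W := Fintype.card_pos_iff.mpr ⟨a⟩
  obtain ⟨r, hr⟩ := hW
  omega

theorem extract [Fintype W] (hW : Even (Fintype.card W)) (L : E → Finset ℕ)
    (hL : ∀ e, (L e).card = k) (f : (B.big S a).gr.edgeSet → ℕ)
    (hf : ∀ e', f e' ∈ L (B.own S a e'))
    (hp : ∀ e' e'', (B.big S a).gr.lineGraph.Adj e' e'' → f e' ≠ f e'') :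
    ∃ c : E → ℕ, (∀ e, c e ∈ L e) ∧
      ∀ e e', e ≠ e' → ∀ v, (B.s e = v ∨ B.t e = v) → (B.s e' = v ∨ B.t e' = v) → c e ≠ c e' := by
  have key : ∀ e v, (B.s e = v ∨ B.t e = v) →
      f ((B.big S a).ed (B.col e) (Sum.inr (e, a))) = f ((B.big S a).ed (B.col e) (Sum.inl v)) := by
    rintro e v (rfl | rfl)
    · have h1 : (B.big S a).nb (B.col e) (Sum.inr (e, a)) = Sum.inl (B.s e) := nbF_a B S a
      rw [← h1, (B.big S a).ed_nb]
    · rw [← B.parity S a hW L hL f hf hp e]
      have h1 : (B.big S a).nb (B.col e) (Sum.inr (e, S.nb (B.col e) a)) = Sum.inl (B.t e) :=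
        nbF_b B S a
      rw [← h1, (B.big S a).ed_nb]
  refine ⟨fun e => f ((B.big S a).ed (B.col e) (Sum.inr (e, a))), ?_, ?_⟩
  · intro e
    have := hf ((B.big S a).ed (B.col e) (Sum.inr (e, a)))
    rwa [own_ed] at this
  · intro e e' hne v hv hv'
    show f _ ≠ f _
    rw [key e v hv, key e' v hv']
    apply hp
    apply (B.big S a).line_adj
    intro hcol
    apply hne
    rw [← B.uniq e v hv, ← B.uniq e' v hv', hcol]

end Base

end Pool.Agent.Q129.LE
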