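import Mathlib
import Pool.Agent.Q129.LE.Par
import Pool.Agent.Q129.LE.Cay

/-! Regularisation, and the reduction (helper129, MP_2f9829_co). -/

set_option autoImplicit false

namespace Pool.Agent.Q129.LE

open Filter

section

variable {V E : Type} (k : ℕ) (s t : E → V) (c : E → ℕ)

/-- the edges of the regular multigraph -/
abbrev RE : Type := (E × Bool) ⊕ {p : V × Fin k // ∀ e, (s e = p.1 ∨ t e = p.1) → c e ≠ p.2}

open Classical in
/-- the edge of colour `i` at a vertex -/
noncomputable def incF (x : V × Bool) (i : Fin k) : RE k s t c :=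
  if h : ∃ e, (s e = x.1 ∨ t e = x.1) ∧ c e = i then Sum.inl (h.choose, x.2)
  else Sum.inr ⟨(x.1, i), fun e he hce => h ⟨e, he, hce⟩⟩

theorem incF_cases (x : V × Bool) (i : Fin k) :
    (∃ e, (s e = x.1 ∨ t e = x.1) ∧ c e = i ∧ incF k s t c x i = Sum.inl (e, x.2)) ∨
    (∃ p, p.1 = (x.1, i) ∧ incF k s t c x i = Sum.inr p) := by
  classical
  by_cases h : ∃ e, (s e = x.1 ∨ t e = x.1) ∧ c e = i
  · left
    refine ⟨h.choose, h.choose_spec.1, h.choose_spec.2, ?_⟩
    unfold incF
    rw [dif_pos h]
  · right
    refine ⟨⟨(x.1, i), fun e he hce => h ⟨e, he, hce⟩⟩, rfl, ?_⟩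
    unfold incF
    rw [dif_neg h]

/-- Every loopless multigraph with a proper edge colouring with `k` colours is contained in a
`k`-regular one. -/
theorem exists_base [Finite V] [Finite E] (hne : ∀ e, s e ≠ t e) (hc : ∀ e, c e < k)
    (hp : ∀ e f, e ≠ f → ∀ v, (s e = v ∨ t e = v) → (s f = v ∨ t f = v) → c e ≠ c f) :
    ∃ (V1 E1 : Type) (_ : Finite V1) (_ : Finite E1) (B : Base k V1 E1) (i : E → E1) (w : V → V1),
      Function.Injective i ∧ ∀ e v, (s e = v ∨ t e = v) → (B.s (i e) = w v ∨ B.t (i e) = w v) := by
  classical
  let B : Base k (V × Bool) (RE k s t c) :=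
    { s := Sum.elim (fun x => (s x.1, x.2)) (fun p => (p.1.1, false))
      t := Sum.elim (fun x => (t x.1, x.2)) (fun p => (p.1.1, true))
      ne := by
        rintro (x | p)
        · simp only [Sum.elim_inl, ne_eq, Prod.mk.injEq, and_true]; exact hne _
        · simp
      col := Sum.elim (fun x => ⟨c x.1, hc x.1⟩) (fun p => p.1.2)
      inc := incF k s t c
      inc_col := by
        intro x i
        rcases incF_cases k s t c x i with ⟨e, h1, h2, h3⟩ | ⟨p, h1, h2⟩
        · rw [h3]; exact Fin.ext h2
        · rw [h2]
          show p.1.2 = i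
          rw [h1]
      inc_mem := by
        rintro ⟨v, b⟩ i
        rcases incF_cases k s t c (v, b) i with ⟨e, h1, h2, h3⟩ | ⟨p, h1, h2⟩
        · rw [h3]
          show (s e, b) = (v, b) ∨ (t e, b) = (v, b)
          rcases h1 with h1 | h1
          · exact Or.inl (by rw [h1])
          · exact Or.inr (by rw [h1])
        · rw [h2]
          show (p.1.1, false) = (v, b) ∨ (p.1.1, true) = (v, b)
          rw [h1]
          cases b
          · exact Or.inl rfl
          · exact Or.inr rfl
      uniq := by
        rintro (⟨e, b'⟩ | p) ⟨v, b⟩ h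
        · have h' : (s e, b') = (v, b) ∨ (t e, b') = (v, b) := h
          simp only [Prod.mk.injEq] at h'
          have hv : s e = v ∨ t e = v := by
            rcases h' with h | h
            · exact Or.inl h.1
            · exact Or.inr h.1
          have hb : b' = b := by
            rcases h' with h | h
            · exact h.2
            · exact h.2
          show incF k s t c (v, b) ⟨c e, hc e⟩ = Sum.inl (e, b')
          rcases incF_cases k s t c (v, b) ⟨c e, hc e⟩ with ⟨e', h1, h2, h3⟩ | ⟨p, h1, h2⟩
          · rw [h3]
            have h4 : e' = e := by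
              by_contra hcon
              exact hp _ _ hcon v h1 hv h2
            rw [h4, hb]
          · exfalso
            have h3 := p.2 e
            rw [h1] at h3
            exact h3 hv rfl
        · have h' : (p.1.1, false) = (v, b) ∨ (p.1.1, true) = (v, b) := h
          simp only [Prod.mk.injEq] at h'
          have hv : p.1.1 = v := by
            rcases h' with h | h
            · exact h.1
            · exact h.1
          show incF k s t c (v, b) p.1.2 = Sum.inr p
          rcases incF_cases k s t c (v, b) p.1.2 with ⟨e', h1, h2, h3⟩ | ⟨p', h1, h2⟩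
          · exfalso
            apply p.2 e' _ h2
            rw [hv]; exact h1
          · rw [h2]
            congr 1
            apply Subtype.ext
            rw [h1]
            exact Prod.ext hv.symm rfl }
  refine ⟨V × Bool, RE k s t c, inferInstance, inferInstance, B, fun e => Sum.inl (e, false),
    fun x => (x, false), ?_, ?_⟩
  · intro e f hef
    have h1 := Sum.inl_injective hef
    exact (Prod.mk.injEq _ _ _ _ ▸ h1).1
  · intro e v hv
    show (s e, false) = (v, false) ∨ (t e, false) = (v, false)
    rcases hv with rfl | rfl
    · exact Or.inl rfl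
    · exact Or.inr rfl

end

end Pool.Agent.Q129.LE
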