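import Mathlib
import Pool.Agent.Q129.LE.Reg

/-! The localisation of the list edge colouring conjecture (helper129, MP_2f9829_co). -/

set_option autoImplicit false

namespace Pool.Agent.Q129.LE

open Filter

/-- The graph `G'` restricted to the new vertices is bipartite. -/
theorem big_bip {k L M : ℕ} (hL : 1 ≤ L) {V E : Type} (B : Base k V E) (a : HV k L M) :
    ((B.big (HS k L M hL) a).gr.induce (Set.range (Sum.inl : V → V ⊕ E × HV k L M))ᶜ).Colorable 2 := by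
  classical
  let col : V ⊕ E × HV k L M → Fin 2 := Sum.elim (fun _ => 0) (fun p => if p.2.2.1 then 1 else 0)
  refine ⟨SimpleGraph.Coloring.mk (fun x => col x.1) ?_⟩
  rintro ⟨x, hx⟩ ⟨y, hy⟩ hxy
  rw [SimpleGraph.induce_adj] at hxy
  obtain ⟨j, hj⟩ := hxy
  simp only [Base.big_nb] at hj
  rcases B.cases_nb (HS k L M hL) a j x with ⟨e, w, rfl, h⟩ | ⟨e, rfl, rfl⟩ | ⟨e, rfl, rfl⟩ |
    ⟨e, rfl, rfl⟩ | ⟨e, rfl, rfl⟩
  · rw [Base.nbF_inner B _ a h] at hj
    subst hj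
    simp only [col, Sum.elim_inr, HS]
    cases w.2.1 <;> simp
  · exact absurd ⟨_, rfl⟩ hx
  · exact absurd ⟨_, rfl⟩ hx
  · rw [Base.nbF_a] at hj
    subst hj
    exact absurd ⟨_, rfl⟩ hy
  · rw [Base.nbF_b] at hj
    subst hj
    exact absurd ⟨_, rfl⟩ hy

theorem card_HV_even (k L M : ℕ) [Fintype (HV k L M)] : Even (Fintype.card (HV k L M)) := by
  classical
  rw [← Nat.card_eq_fintype_card, Nat.card_prod, Nat.card_prod]
  refine ⟨Nat.card (Equiv.Perm (Wd k L)) * Nat.card (Fin M), ?_⟩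
  have h2 : Nat.card Bool = 2 := by simp
  rw [h2]; ring

theorem le_card_HV (k L M : ℕ) : M ≤ Nat.card (HV k L M) := by
  have hinj : Function.Injective (fun m : Fin M => ((1, false, m) : HV k L M)) := by
    intro a b hab
    simpa using hab
  have := Nat.card_le_card_of_injective _ hinj
  simpa using this

/-- The core: the restricted statement, for all bases. -/
theorem core {k g : ℕ} {ω : ℕ → ℕ} (hω : Tendsto ω atTop atTop)
    (h : ∀ (V : Type) [Fintype V] (G : SimpleGraph V) (T : Set V) (L : G.edgeSet → Finset ℕ),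
      (∀ v, (G.neighborSet v).ncard = k) → G.lineGraph.Colorable k → (g : ℕ∞) ≤ G.egirth →
      T.ncard ≤ ω (Fintype.card V) →
      (∀ u ∈ T, ∀ v ∈ T, u ≠ v → (g : ℕ∞) ≤ G.edist u v) → (G.induce Tᶜ).Colorable 2 →
      (∀ e, (L e).card = k) →
      (∀ v ∉ T, ∀ e e' : G.edgeSet, v ∈ e.1 → v ∈ e'.1 → L e = L e') →
      ∃ f : G.edgeSet → ℕ, (∀ e, f e ∈ L e) ∧ ∀ e e', G.lineGraph.Adj e e' → f e ≠ f e')
    {V E : Type} [Finite V] [Finite E] [Nonempty E] (B : Base k V E) (L : E → Finset ℕ)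
    (hL : ∀ e, (L e).card = k) :
    ∃ c : E → ℕ, (∀ e, c e ∈ L e) ∧
      ∀ e e', e ≠ e' → ∀ v, (B.s e = v ∨ B.t e = v) → (B.s e' = v ∨ B.t e' = v) → c e ≠ c e' := by
  classical
  obtain ⟨n0, hn0⟩ := (hω.eventually_ge_atTop (Nat.card V)).exists_forall_of_atTop
  have hg1 : 1 ≤ g + 1 := by omega
  let a : HV k (g + 1) (n0 + 1) := (1, false, 0)
  let S := HS k (g + 1) (n0 + 1) hg1
  have hpot : Pot S.gr (g + 1) := pot_of_girth (HS_girth hg1)
  let _ : Fintype V := Fintype.ofFinite V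
  let _ : Fintype E := Fintype.ofFinite E
  let _ : Fintype (HV k (g + 1) (n0 + 1)) := Fintype.ofFinite _
  have hcard : n0 ≤ Fintype.card (V ⊕ E × HV k (g + 1) (n0 + 1)) := by
    rw [Fintype.card_sum, Fintype.card_prod]
    have h1 : n0 + 1 ≤ Fintype.card (HV k (g + 1) (n0 + 1)) := by
      rw [← Nat.card_eq_fintype_card]; exact le_card_HV _ _ _
    have h2 : 1 ≤ Fintype.card E := Fintype.card_pos
    nlinarith
  have c1 : (g : ℕ∞) ≤ (B.big S a).gr.egirth :=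
    le_trans (Nat.cast_le.mpr (by omega)) (girth_of_pot (B.big_pot S a hpot))
  have c2 : (Set.range (Sum.inl : V → V ⊕ E × HV k (g + 1) (n0 + 1))).ncard ≤
      ω (Fintype.card (V ⊕ E × HV k (g + 1) (n0 + 1))) := by
    rw [← Set.image_univ, Set.ncard_image_of_injective _ Sum.inl_injective, Set.ncard_univ]
    exact hn0 _ hcard
  have c3 : ∀ u ∈ Set.range (Sum.inl : V → V ⊕ E × HV k (g + 1) (n0 + 1)),
      ∀ v ∈ Set.range (Sum.inl : V → V ⊕ E × HV k (g + 1) (n0 + 1)), u ≠ v →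
      (g : ℕ∞) ≤ (B.big S a).gr.edist u v := by
    rintro _ ⟨u, rfl⟩ _ ⟨v, rfl⟩ huv
    have h1 : u ≠ v := fun h => huv (by rw [h])
    exact le_trans (Nat.cast_le.mpr (by omega)) (B.big_dist S a hpot h1)
  have c4 : ∀ v ∉ Set.range (Sum.inl : V → V ⊕ E × HV k (g + 1) (n0 + 1)),
      ∀ e e' : (B.big S a).gr.edgeSet, v ∈ e.1 → v ∈ e'.1 →
      L (B.own S a e) = L (B.own S a e') := by
    rintro (v | ⟨e, w⟩) hv e1 e2 h1 h2
    · exact absurd ⟨v, rfl⟩ hv
    · rw [B.own_eq S a h1, B.own_eq S a h2]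
  obtain ⟨f, hf, hp⟩ := h (V ⊕ E × HV k (g + 1) (n0 + 1)) (B.big S a).gr
    (Set.range Sum.inl) (fun e' => L (B.own S a e')) (B.big S a).ncard_neighborSet
    (B.big S a).colorable c1 c2 c3 (big_bip hg1 B a) (fun e => hL _) c4
  exact B.extract S a (card_HV_even _ _ _) L hL f hf hp

/-- The restricted statement implies the statement for multigraphs. -/
theorem multi_of_local {k g : ℕ} {ω : ℕ → ℕ} (hω : Tendsto ω atTop atTop)
    (h : ∀ (V : Type) [Fintype V] (G : SimpleGraph V) (T : Set V) (L : G.edgeSet → Finset ℕ),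
      (∀ v, (G.neighborSet v).ncard = k) → G.lineGraph.Colorable k → (g : ℕ∞) ≤ G.egirth →
      T.ncard ≤ ω (Fintype.card V) →
      (∀ u ∈ T, ∀ v ∈ T, u ≠ v → (g : ℕ∞) ≤ G.edist u v) → (G.induce Tᶜ).Colorable 2 →
      (∀ e, (L e).card = k) →
      (∀ v ∉ T, ∀ e e' : G.edgeSet, v ∈ e.1 → v ∈ e'.1 → L e = L e') →
      ∃ f : G.edgeSet → ℕ, (∀ e, f e ∈ L e) ∧ ∀ e e', G.lineGraph.Adj e e' → f e ≠ f e')
    {V E : Type} [Finite V] [Finite E] (s t : E → V) (hne : ∀ e, s e ≠ t e)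
    (c0 : E → ℕ) (hc0 : ∀ e, c0 e < k)
    (hp0 : ∀ e f, e ≠ f → ∀ v, (s e = v ∨ t e = v) → (s f = v ∨ t f = v) → c0 e ≠ c0 f)
    (L : E → Finset ℕ) (hL : ∀ e, k ≤ (L e).card) :
    ∃ c : E → ℕ, (∀ e, c e ∈ L e) ∧
      ∀ e f, e ≠ f → ∀ v, (s e = v ∨ t e = v) → (s f = v ∨ t f = v) → c e ≠ c f := by
  classical
  rcases isEmpty_or_nonempty E with hE | hE
  · exact ⟨fun e => 0, fun e => isEmptyElim e, fun e => isEmptyElim e⟩
  choose L0 hL0 hL0c using fun e => Finset.exists_subset_card_eq (hL e)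
  obtain ⟨V1, E1, hV1, hE1, B, i, w, hi, hw⟩ := exists_base k s t c0 hne hc0 hp0
  let L1 : E1 → Finset ℕ := fun e1 => if h : ∃ e, i e = e1 then L0 h.choose else Finset.range k
  have hL1 : ∀ e1, (L1 e1).card = k := by
    intro e1
    simp only [L1]
    split_ifs with h
    · exact hL0c _
    · simp
  have hL1i : ∀ e, L1 (i e) = L0 e := by
    intro e
    have hex : ∃ e', i e' = i e := ⟨e, rfl⟩
    simp only [L1]
    rw [dif_pos hex, hi hex.choose_spec]
  have : Nonempty E1 := ⟨i (Classical.arbitrary E)⟩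
  obtain ⟨c, hc, hcp⟩ := core hω h B L1 hL1
  refine ⟨fun e => c (i e), fun e => hL0 e (by rw [← hL1i]; exact hc _), ?_⟩
  intro e f hef v hv hv'
  exact hcp (i e) (i f) (fun hh => hef (hi hh)) (w v) (hw e v hv) (hw f v hv')

end Pool.Agent.Q129.LE
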